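import Pool.Agent.Y697.PP.Asy2
import Pool.Agent.E8helper75.F3D.Mast
import Pool.Agent.E8helper79.QI.Fin

/-! The exact proportion of the nondegenerate sets, with the weights given by `1 + i`. -/

set_option autoImplicit false

namespace Pool.Agent.E8helper75.F3D

open Pool.Agent.Y697.PP Pool.Agent.E8helper79.QI
open Finset Filter
open Pool.Agent.Y697.MQ (leg OP Pr Pr_prod gA)
open scoped Classical

theorem t4r {X : ℕ} (h : 4 ≤ eL X) {D : ℕ} (hD : 2 ≤ D) (h2 : 4 * Real.log D ≤ eL X) :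
    35840000 * X * (1 + Real.log ((pz X ^ pK X : ℕ) : ℝ)) ^ 3 / 2 ^ pV D X ≤
    X * (35840000 * (23 * eL X ^ 4) ^ 3 * (3 * Real.exp (-(eL X / (16 * D * Real.log D))))) := by
  have h1 := mul_le_mul_of_nonneg_left (t4 h hD h2) (show (0 : ℝ) ≤ 35840000 / 24320000 by norm_num)
  have e1 : (35840000 : ℝ) / 24320000 * (24320000 * X *
      (1 + Real.log ((pz X ^ pK X : ℕ) : ℝ)) ^ 3 / 2 ^ pV D X) =
      35840000 * X * (1 + Real.log ((pz X ^ pK X : ℕ) : ℝ)) ^ 3 / 2 ^ pV D X := by ring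
  have e2 : (35840000 : ℝ) / 24320000 * (X * (24320000 * (23 * eL X ^ 4) ^ 3 *
      (3 * Real.exp (-(eL X / (16 * D * Real.log D)))))) =
      X * (35840000 * (23 * eL X ^ 4) ^ 3 * (3 * Real.exp (-(eL X / (16 * D * Real.log D))))) := by
    ring
  rwa [e1, e2] at h1

/-- the error -/
noncomputable def TE (C : ℝ) (D : ℕ) (L : ℝ) : ℝ :=
  800 * Real.exp (-L) + 36 * Real.exp (-(L / 2)) + 44000 * Real.exp (-L) +
  35840000 * (23 * L ^ 4) ^ 3 * (3 * Real.exp (-(L / (16 * D * Real.log D)))) +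
  (160 * D * Real.log D / L + 14400 * (4 * D * Real.log D / L) ^ 2) +
  80 * C * Real.exp (474 * L ^ 2 - L ^ 3 / 32)

theorem TE_tendsto (C : ℝ) {D : ℕ} (hD : 2 ≤ D) : Tendsto (TE C D) atTop (nhds 0) := by
  have hD' : (0 : ℝ) < D := by
    have : 0 < D := by omega
    exact_mod_cast this
  have h0 : 0 < Real.log D := Real.log_pos (by exact_mod_cast hD)
  have e1 : Tendsto (fun L : ℝ => Real.exp (-L)) atTop (nhds 0) :=
    Real.tendsto_exp_neg_atTop_nhds_zero
  have e2 : Tendsto (fun L : ℝ => Real.exp (-(L / 2))) atTop (nhds 0) :=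
    e1.comp (tendsto_id.atTop_div_const (by norm_num))
  have e4 : Tendsto (fun L : ℝ => L ^ 12 * Real.exp (-(L / (16 * D * Real.log D))))
      atTop (nhds 0) := by
    have h1 := (Real.tendsto_pow_mul_exp_neg_atTop_nhds_zero 12).comp
      (tendsto_id.atTop_div_const (show (0 : ℝ) < 16 * D * Real.log D by positivity))
    have h2 := h1.const_mul ((16 * D * Real.log D) ^ 12)
    rw [mul_zero] at h2
    refine h2.congr fun L => ?_
    simp only [Function.comp, id]
    rw [div_pow, ← mul_assoc, mul_div_cancel₀ _ (by positivity)]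
  have e5 : Tendsto (fun L : ℝ => (D * Real.log D) / L) atTop (nhds 0) :=
    tendsto_const_nhds.div_atTop tendsto_id
  have e6 : Tendsto (fun L : ℝ => Real.exp (474 * L ^ 2 - L ^ 3 / 32)) atTop (nhds 0) := by
    refine squeeze_zero' (Eventually.of_forall fun L => (Real.exp_pos _).le) ?_ e1
    filter_upwards [eventually_ge_atTop 15200] with L hL
    apply Real.exp_le_exp.2
    have h1 : L ^ 3 = L * L ^ 2 := by ring
    have h2 : 0 ≤ L ^ 2 := by positivity
    nlinarith
  have h1 := ((((e1.const_mul 800).add (e2.const_mul 36)).add (e1.const_mul 44000)).add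
    (e4.const_mul (35840000 * 23 ^ 3 * 3))).add
    (((e5.const_mul 160).add ((e5.const_mul 4).pow 2 |>.const_mul 14400)))
  have h2 := h1.add (e6.const_mul (80 * C))
  simp only [mul_zero, add_zero] at h2
  rw [show (0 : ℝ) ^ 2 = 0 by norm_num, mul_zero, add_zero] at h2
  rw [add_zero] at h2
  refine h2.congr fun L => ?_
  unfold TE
  ring

/-- the two bounds -/
theorem two_bounds : ∃ (E : ℕ → ℝ) (T : ℕ → ℕ), Tendsto E atTop (nhds 0) ∧
    Tendsto T atTop atTop ∧ ∀ᶠ X : ℕ in atTop,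
      (∏' i : ℕ, (1 - (1 / 2 : ℝ) ^ (2 * i + 1))) * ((SS X).card : ℝ) ≤
        (((SS X).filter fun S => Dt S).card : ℝ) + X * E X ∧
      (1 - gg (T X)) * ((SS X).card : ℝ) ≤
        (((SS X).filter fun S => ¬ Dt S).card : ℝ) + X * E X := by
  obtain ⟨C, hC, hbil⟩ := bil
  obtain ⟨D, hD, Z₀, hZ₀, hmer⟩ := mertens
  have hT := (TE_tendsto C hD).comp eL_tendsto
  have hT2 := (TE2_tendsto hD).comp eL_tendsto
  have hV := pV_tendsto hD
  refine ⟨fun X => 2 * TE C D (eL X) + TE2 D (eL X), fun X => pV D X - pV D X / 2 - 2, ?_, ?_, ?_⟩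
  · have h1 := (hT.const_mul 2).add hT2
    rw [mul_zero, add_zero] at h1
    exact h1
  · rw [tendsto_atTop] at hV ⊢
    intro b
    filter_upwards [hV (2 * b + 4)] with X hX
    omega
  have h2 : ∀ᶠ X : ℕ in atTop, 4 ≤ eL X := eL_tendsto.eventually_ge_atTop 4
  have h3 : ∀ᶠ X : ℕ in atTop, 4 * Real.log D ≤ eL X := eL_tendsto.eventually_ge_atTop _
  have h4 : ∀ᶠ X : ℕ in atTop, 16 * eL X ^ 3 ≤ Real.exp (eL X / 2) := by
    have e1 : Tendsto (fun L : ℝ => L ^ 3 * Real.exp (-(L / 2))) atTop (nhds 0) := by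
      have h1 := (Real.tendsto_pow_mul_exp_neg_atTop_nhds_zero 3).comp
        (tendsto_id.atTop_div_const (show (0 : ℝ) < 2 by norm_num))
      have h2 := h1.const_mul (2 ^ 3)
      rw [mul_zero] at h2
      refine h2.congr fun L => ?_
      simp only [Function.comp, id]
      ring
    have e2 : ∀ᶠ L : ℝ in atTop, L ^ 3 * Real.exp (-(L / 2)) < 1 / 16 :=
      e1.eventually (gt_mem_nhds (by norm_num))
    have e3 : ∀ᶠ L : ℝ in atTop, 16 * L ^ 3 ≤ Real.exp (L / 2) := by
      refine e2.mono fun L hL => ?_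
      rw [Real.exp_neg, ← div_eq_mul_inv, div_lt_iff₀ (Real.exp_pos _)] at hL
      linarith
    exact eL_tendsto.eventually e3
  have h5 : ∀ᶠ X : ℕ in atTop, (Z₀ : ℝ) ≤ eL X := eL_tendsto.eventually_ge_atTop _
  have h6 : ∀ᶠ X : ℕ in atTop, 4 ≤ pV D X := hV.eventually_ge_atTop 4
  filter_upwards [h2, h3, h4, h5, h6] with X g2 g3 g4 g5 g6
  have hz0 : Z₀ ≤ pz X := by
    have e1 : (Z₀ : ℝ) ≤ pz X := by
      refine g5.trans (le_trans ?_ (pz_ge g2))
      have e2 := Real.add_one_le_exp (eL X ^ 3)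
      have e3 : eL X ≤ eL X ^ 3 := le_self_pow₀ (by linarith) (by norm_num)
      linarith
    exact_mod_cast e1
  have hκ : C ≤ (C * Real.exp (-(eL X ^ 3 / 32))) ^ 32 * pz X := by
    have e1 : (C * Real.exp (-(eL X ^ 3 / 32))) ^ 32 = C ^ 32 * Real.exp (-(eL X ^ 3)) := by
      rw [mul_pow, ← Real.exp_nat_mul]
      congr 2
      push_cast
      ring
    rw [e1]
    have e2 : 1 ≤ Real.exp (-(eL X ^ 3)) * pz X := by
      rw [Real.exp_neg, ← div_eq_inv_mul, one_le_div (Real.exp_pos _)]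
      exact pz_ge g2
    have e3 : C ≤ C ^ 32 := le_self_pow₀ hC (by norm_num)
    calc C ≤ C ^ 32 * 1 := by linarith
      _ ≤ C ^ 32 * (Real.exp (-(eL X ^ 3)) * pz X) := by gcongr
      _ = _ := by ring
  have hlim0 : (0 : ℝ) ≤ ∏' i : ℕ, (1 - (1 / 2 : ℝ) ^ (2 * i + 1)) :=
    ge_of_tendsto gg_lim (Eventually.of_forall gg_nonneg)
  have hL := masterL hC hbil (K := pK X) (pV D X) (X_pos g2) (pH_pos g2) (pz_pos g2)
    (κ := C * Real.exp (-(eL X ^ 3 / 32))) (by positivity) hκ (pN_gt g2) hlim0 lim_le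
  have hU := masterU hC hbil (K := pK X) (T := pV D X - pV D X / 2 - 2) (U := pV D X / 2)
    (V := pV D X) (X_pos g2) (pH_pos g2) (pz_pos g2)
    (κ := C * Real.exp (-(eL X ^ 3 / 32))) (by positivity) hκ (pN_gt g2) (by omega)
  have b1 := t1 g2
  have b2 := t2 g2
  have b3 := t3 g2
  have b4 := t4r g2 hD g3
  have b5 := t5 g2 hD g3 g4 (hmer _ hz0 _)
  have b6 := t6 g2 hC
  have b7 := t7 g2 hD g3
  have hX : (0 : ℝ) ≤ X := Nat.cast_nonneg _
  have hE : FE X (pz X) (pH X) (pK X) (pV D X) + ((pN X : ℝ) + 1) ^ pK X *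
      ((2 ^ (2 * pK X ^ 2 + pK X) * 10 ^ pK X * (C * Real.exp (-(eL X ^ 3 / 32)))) *
        (X * (40 * (1 + Real.log X)))) ≤ X * TE C D (eL X) := by
    unfold FE TE
    have := add_le_add (add_le_add (add_le_add (add_le_add (add_le_add b1 b2) b3) b4) b5) b6
    refine this.trans (le_of_eq ?_)
    ring
  have hE5 : (((SS X).filter fun S => (la (pz X) S).card < pV D X).card : ℝ) ≤
      X * TE C D (eL X) := by
    refine b5.trans (mul_le_mul_of_nonneg_left ?_ hX)
    unfold TE
    have h0 : 0 < Real.log D := Real.log_pos (by exact_mod_cast hD)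
    have q1 : 0 ≤ 800 * Real.exp (-eL X) + 36 * Real.exp (-(eL X / 2)) +
      44000 * Real.exp (-eL X) + 35840000 * (23 * eL X ^ 4) ^ 3 *
        (3 * Real.exp (-(eL X / (16 * D * Real.log D)))) := by positivity
    have q2 : 0 ≤ 80 * C * Real.exp (474 * eL X ^ 2 - eL X ^ 3 / 32) := by positivity
    linarith
  have hTE : 0 ≤ (X : ℝ) * TE C D (eL X) := (Nat.cast_nonneg _).trans hE5
  have hTE2 : 0 ≤ (X : ℝ) * TE2 D (eL X) := by
    refine mul_nonneg hX ?_
    unfold TE2
    positivity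
  have e1 : (X : ℝ) * (2 * TE C D (eL X) + TE2 D (eL X)) =
      X * TE C D (eL X) + X * TE C D (eL X) + X * TE2 D (eL X) := by ring
  constructor
  · rw [e1]
    linarith
  · rw [e1]
    linarith

/-- **The exact proportion.** -/
theorem exact : Tendsto (fun X : ℕ => (((SS X).filter fun S => Dt S).card : ℝ) /
    ((SS X).card : ℝ)) atTop (nhds (∏' i : ℕ, (1 - (1 / 2 : ℝ) ^ (2 * i + 1)))) := by
  obtain ⟨E, T, hE, hT, hb⟩ := two_bounds
  set G : ℝ := ∏' i : ℕ, (1 - (1 / 2 : ℝ) ^ (2 * i + 1)) with hG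
  have hE' : Tendsto (fun X => 65536000 * |E X|) atTop (nhds 0) := by
    have := (hE.abs).const_mul 65536000
    rw [abs_zero, mul_zero] at this
    exact this
  have hlo : Tendsto (fun X => G - 65536000 * |E X|) atTop (nhds G) := by
    have := (tendsto_const_nhds (x := G)).sub hE'
    rw [sub_zero] at this
    exact this
  have hhi : Tendsto (fun X => gg (T X) + 65536000 * |E X|) atTop (nhds G) := by
    have := (gg_lim.comp hT).add hE'
    rw [add_zero] at this
    exact this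
  refine tendsto_of_tendsto_of_tendsto_of_le_of_le' hlo hhi ?_ ?_
  · filter_upwards [hb, eventually_ge_atTop 72] with X h1 h2
    have h3 := SS_ge h2
    have hX : (72 : ℝ) ≤ X := by exact_mod_cast h2
    have h4 : (0 : ℝ) < (SS X).card := by
      refine lt_of_lt_of_le ?_ h3
      positivity
    rw [le_div_iff₀ h4]
    have h5 : (X : ℝ) * E X ≤ 65536000 * |E X| * (SS X).card := by
      calc (X : ℝ) * E X ≤ X * |E X| := by
            have := le_abs_self (E X)
            gcongr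
        _ = 65536000 * |E X| * ((X : ℝ) / 65536000) := by ring
        _ ≤ _ := by gcongr
    linarith [h1.1]
  · filter_upwards [hb, eventually_ge_atTop 72] with X h1 h2
    have h3 := SS_ge h2
    have hX : (72 : ℝ) ≤ X := by exact_mod_cast h2
    have h4 : (0 : ℝ) < (SS X).card := by
      refine lt_of_lt_of_le ?_ h3
      positivity
    rw [div_le_iff₀ h4]
    have h5 : (X : ℝ) * E X ≤ 65536000 * |E X| * (SS X).card := by
      calc (X : ℝ) * E X ≤ X * |E X| := by
            have := le_abs_self (E X)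
            gcongr
        _ = 65536000 * |E X| * ((X : ℝ) / 65536000) := by ring
        _ ≤ _ := by gcongr
    have h6 := Finset.card_filter_add_card_filter_not (s := SS X) (fun S => Dt S)
    have h7 : (((SS X).filter fun S => Dt S).card : ℝ) +
        (((SS X).filter fun S => ¬ Dt S).card : ℝ) = (SS X).card := by exact_mod_cast h6
    linarith [h1.2]



end Pool.Agent.E8helper75.F3D
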