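import Pool.Agent.E8helper75.F3D.Bad
import Pool.Agent.Y697.PP.Box
import Pool.Agent.E8helper79.QI.BoxG

/-! The count of the good tuples in a box. -/

set_option autoImplicit false

namespace Pool.Agent.E8helper75.F3D

open Pool.Agent.Y697.PP Pool.Agent.E8helper79.QI

open Finset Module
open Pool.Agent.Y697.MQ (leg leg_mul leg_congr leg_eq_zero OP recip leg_cases leg_ne gA gA_eq)

variable {ι : Type} [Fintype ι] [DecidableEq ι] [LinearOrder ι]

/-- the label of a prime with respect to the small primes -/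
noncomputable def lab (S₀ : Finset GaussianInt) (q : GaussianInt) : (S₀ → ZMod 2) × ZMod 2 :=
  (fun v => gA v q, gW q)

/-- the weights -/
noncomputable def tb (S₀ : Finset GaussianInt) (β : ι → (S₀ → ZMod 2) × ZMod 2) :
    S₀ ⊕ ι → ZMod 2
  | Sum.inl v => gW v
  | Sum.inr i => (β i).2

theorem nd_W0 {S₀ : Finset GaussianInt} (hS : ∀ p ∈ S₀, OP p)
    {β : ι → (S₀ → ZMod 2) × ZMod 2} (hβ : Lg S₀ β) :
    Nd (BB (tb S₀ β) (Ab S₀ β)) (W0 S₀ ι) := by
  intro x hx hx0
  have hne : Nonempty ι := by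
    by_contra h
    rw [not_nonempty_iff] at h
    exact absurd (hβ 1 0 fun i => (h.false i).elim).1 (by decide)
  obtain ⟨i₀⟩ := hne
  set c := x (Sum.inr i₀) with hc
  have hxc : ∀ i, x (Sum.inr i) = c := fun i => hx i i₀
  have h1 : ∀ i, c * (β i).2 + ∑ v : S₀, (c + x (Sum.inl v)) * (β i).1 v = 0 := by
    intro i
    have h2 : BB (tb S₀ β) (Ab S₀ β) (Pi.single (Sum.inr i) 1) x = 0 := by
      rw [BB_symm _ (Ab_symm hS β), hx0, LinearMap.zero_apply]
    rw [BB_single, Fintype.sum_sum_type] at h2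
    have h3 : ∑ l : ι, Ab S₀ β (Sum.inr i) (Sum.inr l) * (x (Sum.inr i) + x (Sum.inr l)) = 0 :=
      Finset.sum_eq_zero fun l _ => by
        show 0 * _ = _
        rw [zero_mul]
    rw [h3, add_zero, hxc] at h2
    have h4 : ∑ v : S₀, Ab S₀ β (Sum.inr i) (Sum.inl v) * (c + x (Sum.inl v)) =
        ∑ v : S₀, (c + x (Sum.inl v)) * (β i).1 v :=
      Finset.sum_congr rfl fun v _ => by
        show (β i).1 v * _ = _
        ring
    rw [h4] at h2
    have h5 : tb S₀ β (Sum.inr i) = (β i).2 := rfl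
    rw [h5] at h2
    linear_combination h2
  obtain ⟨h2, h3⟩ := hβ c (fun v => c + x (Sum.inl v)) h1
  funext w
  rcases w with v | i
  · have := h3 v
    rw [h2, zero_add] at this
    exact this
  · rw [hxc i, h2]
    rfl

open Classical in
/-- **The count in a box.** -/
theorem boxG {K : ℝ} (hK : 1 ≤ K) (hbil : ∀ (S T : Finset GaussianInt) (A B z : ℕ)
      (c d : GaussianInt → ℝ), (∀ p ∈ S, OP p) → (∀ p ∈ T, OP p) → 1 ≤ z → z ≤ A → z ≤ B →
      (∀ p ∈ S, nm p ≤ A) → (∀ p ∈ T, nm p ≤ B) → (∀ p, |c p| ≤ 1) → (∀ p, |d p| ≤ 1) →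
      (TT S T c d) ^ 32 * z ≤ K * ((A : ℝ) * B) ^ 32)
    {S₀ : Finset GaussianInt} (hS : ∀ p ∈ S₀, OP p)
    {C : ι → Finset GaussianInt} (hC : ∀ i, ∀ p ∈ C i, OP p)
    (hdis : ∀ i j, i ≠ j → Disjoint (C i) (C j)) (hdis₀ : ∀ i, ∀ p ∈ C i, p ∉ S₀)
    {X : ι → ℕ} {z : ℕ} (hz : 1 ≤ z)
    (hzX : ∀ i, z ≤ X i) (hX : ∀ i, ∀ p ∈ C i, nm p ≤ X i) {κ : ℝ} (hκ : 0 ≤ κ)
    (hκz : K ≤ κ ^ 32 * z) (Q : Prop → Prop) {c : ℝ}
    (hQ : ∀ β : ι → (S₀ → ZMod 2) × ZMod 2, Lg S₀ β → c * 2 ^ (EE ι).card ≤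
      ((univ.filter fun a : EE ι → ZMod 2 =>
        Q (Nd (BB (tb S₀ β) (Ab S₀ β) + BB 0 (At S₀ a)) ⊤)).card : ℝ)) :
    c * (((Fintype.piFinset C).filter fun p => Lg S₀ fun i => lab S₀ (p i)).card : ℝ) -
      (2 ^ (S₀.card + 1)) ^ (Fintype.card ι) * (2 ^ (EE ι).card * (κ * ∏ j, (10 * (X j : ℝ)))) ≤
      (((Fintype.piFinset C).filter fun p =>
        Q ((Mt gA gW (S₀ ∪ univ.image p)).det ≠ 0)).card : ℝ) := by
  set R : ℝ := 2 ^ (EE ι).card * (κ * ∏ j, (10 * (X j : ℝ))) with hR
  have hR0 : 0 ≤ R := mul_nonneg (by positivity)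
    (mul_nonneg hκ (Finset.prod_nonneg fun j _ => by positivity))
  -- the part with given labels
  have h1 : ∀ β : ι → (S₀ → ZMod 2) × ZMod 2, Lg S₀ β →
      c * (((Fintype.piFinset C).filter fun p => (fun i => lab S₀ (p i)) = β).card : ℝ) - R ≤
      (((Fintype.piFinset C).filter fun p => (fun i => lab S₀ (p i)) = β ∧
        Q ((Mt gA gW (S₀ ∪ univ.image p)).det ≠ 0)).card : ℝ) := by
    intro β hβ
    set C' : ι → Finset GaussianInt := fun i => (C i).filter fun q => lab S₀ q = β i with hC'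
    have hpi : (Fintype.piFinset C).filter (fun p => (fun i => lab S₀ (p i)) = β) =
        Fintype.piFinset C' := by
      ext p
      simp only [Finset.mem_filter, Fintype.mem_piFinset, hC']
      constructor
      · rintro ⟨h2, h3⟩ i
        exact ⟨h2 i, congrFun h3 i⟩
      · intro h2
        exact ⟨fun i => (h2 i).1, funext fun i => (h2 i).2⟩
    have h2 := hQ β hβ
    have h3 := count_set hK hbil (C := C') (fun i p hp => hC i p (Finset.mem_filter.1 hp).1)
      (fun i j hij => (hdis i j hij).mono (Finset.filter_subset _ _) (Finset.filter_subset _ _))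
      hz hzX (fun i p hp => hX i p (Finset.mem_filter.1 hp).1) hκ hκz
      (fun a => Q (Nd (BB (tb S₀ β) (Ab S₀ β) + BB 0 (At S₀ a)) ⊤)) h2
    rw [hpi, Fintype.card_piFinset]
    push_cast
    refine h3.trans ?_
    have h4 : ((Fintype.piFinset C').filter fun p => Q (Nd (BB (tb S₀ β) (Ab S₀ β) +
        BB 0 (At S₀ fun e : EE ι => gr (p e.1.1) (p e.1.2))) ⊤)) ⊆
        ((Fintype.piFinset C).filter fun p => (fun i => lab S₀ (p i)) = β ∧
          Q ((Mt gA gW (S₀ ∪ univ.image p)).det ≠ 0)) := by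
      intro p hp
      rw [Finset.mem_filter, Fintype.mem_piFinset] at hp
      obtain ⟨hp1, hp2⟩ := hp
      have hpC : ∀ i, p i ∈ C i := fun i => (Finset.mem_filter.1 (hp1 i)).1
      have hpl : ∀ i, lab S₀ (p i) = β i := fun i => (Finset.mem_filter.1 (hp1 i)).2
      have hpinj : Function.Injective p := by
        intro i j hij
        by_contra hne
        have := Finset.disjoint_left.1 (hdis i j hne) (hpC i)
        rw [hij] at this
        exact this (hpC j)
      rw [Finset.mem_filter, Fintype.mem_piFinset]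
      refine ⟨hpC, funext hpl, ?_⟩
      set f : S₀ ⊕ ι → GaussianInt := Sum.elim Subtype.val p with hf
      have hfinj : Function.Injective f := by
        rintro (v | i) (u | j) h
        · exact congrArg Sum.inl (Subtype.ext h)
        · exfalso
          have h' : (v : GaussianInt) = p j := h
          exact hdis₀ j _ (hpC j) (h' ▸ v.2)
        · exfalso
          have h' : p i = (u : GaussianInt) := h
          exact hdis₀ i _ (hpC i) (h' ▸ u.2)
        · exact congrArg Sum.inr (hpinj h)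
      have hfim : univ.image f = S₀ ∪ univ.image p := by
        ext x
        simp only [Finset.mem_image, Finset.mem_univ, true_and, Finset.mem_union]
        constructor
        · rintro ⟨v | i, rfl⟩
          · exact Or.inl v.2
          · exact Or.inr ⟨i, rfl⟩
        · rintro (h | ⟨i, rfl⟩)
          · exact ⟨Sum.inl ⟨x, h⟩, rfl⟩
          · exact ⟨Sum.inr i, rfl⟩
      rw [det_Mt gA gW _ f hfinj hfim]
      rw [BB_add, det_iff] at hp2
      have h5 := hp2
      have h6 : MW (fun x y => gA (f x) (f y)) (fun x => gW (f x)) =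
          MW (fun w u => Ab S₀ β w u + At S₀ (fun e : EE ι => gr (p e.1.1) (p e.1.2)) w u)
            (tb S₀ β) := by
        apply MW_congr
        · rintro (v | i) (u | j) hne
          · show gA v u = gA v u + 0
            rw [add_zero]
          · show gA v (p j) = (β j).1 v + 0
            rw [add_zero, ← hpl j]
            rfl
          · show gA (p i) u = (β i).1 u + 0
            rw [add_zero, ← hpl i, gA_symm (hC i _ (hpC i)) (hS u u.2)]
            rfl
          · show gA (p i) (p j) = 0 + ex (fun e : EE ι => gr (p e.1.1) (p e.1.2)) i j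
            rw [zero_add]
            have hij : i ≠ j := fun h => hne (congrArg Sum.inr h)
            have hpij : p i ≠ p j := fun h => hij (hpinj h)
            unfold ex
            rcases lt_or_gt_of_ne hij with h7 | h7
            · rw [dif_pos (mem_EE.2 h7)]
              exact gA_eq (hC i _ (hpC i)) (hC j _ (hpC j)) hpij
            · rw [dif_neg (fun h8 => absurd (mem_EE.1 h8) (not_lt.2 h7.le)),
                dif_pos (mem_EE.2 h7)]
              rfl
        · rintro (v | i)
          · rfl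
          · show gW (p i) = (β i).2
            rw [← hpl i]
            rfl
      rw [h6]
      exact h5
    exact_mod_cast Finset.card_le_card h4
  -- sum over the labels
  have h2 : (((Fintype.piFinset C).filter fun p => Lg S₀ fun i => lab S₀ (p i)).card : ℝ) =
      ∑ β ∈ univ.filter (fun β : ι → (S₀ → ZMod 2) × ZMod 2 => Lg S₀ β),
        (((Fintype.piFinset C).filter fun p => (fun i => lab S₀ (p i)) = β).card : ℝ) := by
    rw [Finset.card_eq_sum_card_fiberwise (f := fun (p : ι → GaussianInt) (i : ι) => lab S₀ (p i))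
      (t := univ.filter (fun β : ι → (S₀ → ZMod 2) × ZMod 2 => Lg S₀ β)) (by
        intro p hp
        rw [Finset.mem_coe, Finset.mem_filter] at hp
        rw [Finset.mem_coe, Finset.mem_filter]
        exact ⟨Finset.mem_univ _, hp.2⟩)]
    push_cast
    refine Finset.sum_congr rfl fun β hβ => ?_
    rw [Finset.mem_filter] at hβ
    congr 2
    ext p
    simp only [Finset.mem_filter]
    constructor
    · rintro ⟨⟨h3, h4⟩, h5⟩
      exact ⟨h3, h5⟩
    · rintro ⟨h3, h4⟩
      exact ⟨⟨h3, by rw [h4]; exact hβ.2⟩, h4⟩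
  have h3 : ∑ β ∈ univ.filter (fun β : ι → (S₀ → ZMod 2) × ZMod 2 => Lg S₀ β),
      (((Fintype.piFinset C).filter fun p => (fun i => lab S₀ (p i)) = β ∧
        Q ((Mt gA gW (S₀ ∪ univ.image p)).det ≠ 0)).card : ℝ) ≤
      (((Fintype.piFinset C).filter fun p =>
        Q ((Mt gA gW (S₀ ∪ univ.image p)).det ≠ 0)).card : ℝ) := by
    have h4 : (((Fintype.piFinset C).filter fun p =>
        Q ((Mt gA gW (S₀ ∪ univ.image p)).det ≠ 0)).card : ℝ) =
        ∑ β : ι → (S₀ → ZMod 2) × ZMod 2, (((Fintype.piFinset C).filter fun p =>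
          (fun i => lab S₀ (p i)) = β ∧ Q ((Mt gA gW (S₀ ∪ univ.image p)).det ≠ 0)).card : ℝ) := by
      rw [Finset.card_eq_sum_card_fiberwise (f := fun (p : ι → GaussianInt) (i : ι) =>
        lab S₀ (p i)) (t := univ) (fun _ _ => Finset.mem_coe.2 (Finset.mem_univ _))]
      push_cast
      refine Finset.sum_congr rfl fun β _ => ?_
      congr 2
      ext p
      simp only [Finset.mem_filter]
      tauto
    rw [h4]
    exact Finset.sum_le_sum_of_subset_of_nonneg (Finset.filter_subset _ _)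
      fun _ _ _ => Nat.cast_nonneg _
  refine le_trans ?_ h3
  rw [h2, Finset.mul_sum]
  have h4 := Finset.sum_le_sum fun β (hβ : β ∈ univ.filter
    (fun β : ι → (S₀ → ZMod 2) × ZMod 2 => Lg S₀ β)) => h1 β (Finset.mem_filter.1 hβ).2
  rw [Finset.sum_sub_distrib, Finset.sum_const, nsmul_eq_mul] at h4
  have h5 : ((univ.filter (fun β : ι → (S₀ → ZMod 2) × ZMod 2 => Lg S₀ β)).card : ℝ) ≤
      (2 ^ (S₀.card + 1)) ^ (Fintype.card ι) := by
    have h6 : (univ.filter (fun β : ι → (S₀ → ZMod 2) × ZMod 2 => Lg S₀ β)).card ≤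
        Fintype.card (ι → (S₀ → ZMod 2) × ZMod 2) := Finset.card_le_univ _
    rw [Fintype.card_fun, Fintype.card_prod, Fintype.card_fun, ZMod.card, Fintype.card_coe,
      ← pow_succ] at h6
    exact_mod_cast h6
  have h6 := mul_le_mul_of_nonneg_right h5 hR0
  linarith

end Pool.Agent.E8helper75.F3D
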