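import Pool.Agent.Y697.PP.Hyp
import Pool.Agent.Y697.PP.Bad

/-! Sums of quadratic characters. -/

set_option autoImplicit false

namespace Pool.Agent.E8helper75.F3D

open Pool.Agent.Y697.PP

open Finset
open Pool.Agent.Y697.MQ (leg OP Pr Pr_prod Reps Pr_iff Pr_one leg_mul leg_congr
  leg_eq_zero exists_op)
open scoped Classical

/-- for primary `g`: the quadratic symbol of `1 + i` modulo `g` -/
noncomputable def cr (g : GaussianInt) : ℤ := if Pr g then (if (g.re + g.im) % 8 = 1 then 1 else -1) else 0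

theorem cr_zero {g : GaussianInt} (h : ¬ Pr g) : cr g = 0 := by
  unfold cr
  rw [if_neg h]

theorem cr_ne {g : GaussianInt} (h : Pr g) : cr g = 1 ∨ cr g = -1 := by
  unfold cr
  rw [if_pos h]
  split_ifs <;> simp

theorem cr_sq {g : GaussianInt} (h : Pr g) : cr g * cr g = 1 := by
  rcases cr_ne h with h | h <;> rw [h] <;> rfl

theorem cr_one : cr 1 = 1 := by
  unfold cr
  rw [if_pos Pr_one]
  rfl

theorem Pr_sum {g : GaussianInt} (h : Pr g) : (g.re + g.im) % 8 = 1 ∨ (g.re + g.im) % 8 = 5 := by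
  unfold Pr at h
  omega

theorem Pr_of_mul {g h : GaussianInt} (hg : Pr g) (hgh : Pr (g * h)) : Pr h := by
  by_contra hc
  have h1 := Pool.Agent.Y697.MQ.ci_mul hg h
  rw [Pool.Agent.Y697.MQ.ci_zero hc, mul_zero] at h1
  rcases Pool.Agent.Y697.MQ.ci_ne hgh with h2 | h2 <;> rw [h2] at h1 <;> norm_num at h1

theorem cr_mul {g : GaussianInt} (hg : Pr g) (h : GaussianInt) : cr (g * h) = cr g * cr h := by
  by_cases hh : Pr h
  · have hgh := (hg.mul hh).1
    unfold cr
    rw [if_pos hg, if_pos hh, if_pos hgh]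
    have e1 : (g * h).re + (g * h).im = (g.re + g.im) * (h.re + h.im) - 2 * (g.im * h.im) := by
      rw [Zsqrtd.re_mul, Zsqrtd.im_mul]
      ring
    obtain ⟨a, ha⟩ : ∃ a, g.im = 2 * a := ⟨g.im / 2, by unfold Pr at hg; omega⟩
    obtain ⟨b, hb⟩ : ∃ b, h.im = 2 * b := ⟨h.im / 2, by unfold Pr at hh; omega⟩
    have e2 : 2 * (g.im * h.im) = 8 * (a * b) := by rw [ha, hb]; ring
    rw [e1, e2]
    rcases Pr_sum hg with h1 | h1 <;> rcases Pr_sum hh with h2 | h2
    · obtain ⟨x, hx⟩ : ∃ x, g.re + g.im = 8 * x + 1 := ⟨(g.re + g.im) / 8, by omega⟩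
      obtain ⟨y, hy⟩ : ∃ y, h.re + h.im = 8 * y + 1 := ⟨(h.re + h.im) / 8, by omega⟩
      have e3 : (g.re + g.im) * (h.re + h.im) - 8 * (a * b) = 8 * (8 * x * y + x + y - a * b) + 1 := by
        rw [hx, hy]; ring
      rw [e3, if_pos h1, if_pos h2, if_pos (by omega)]
      rfl
    · obtain ⟨x, hx⟩ : ∃ x, g.re + g.im = 8 * x + 1 := ⟨(g.re + g.im) / 8, by omega⟩
      obtain ⟨y, hy⟩ : ∃ y, h.re + h.im = 8 * y + 5 := ⟨(h.re + h.im) / 8, by omega⟩
      have e3 : (g.re + g.im) * (h.re + h.im) - 8 * (a * b) = 8 * (8 * x * y + 5 * x + y - a * b) + 5 := by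
        rw [hx, hy]; ring
      rw [e3, if_pos h1, if_neg (by omega), if_neg (by omega)]
      rfl
    · obtain ⟨x, hx⟩ : ∃ x, g.re + g.im = 8 * x + 5 := ⟨(g.re + g.im) / 8, by omega⟩
      obtain ⟨y, hy⟩ : ∃ y, h.re + h.im = 8 * y + 1 := ⟨(h.re + h.im) / 8, by omega⟩
      have e3 : (g.re + g.im) * (h.re + h.im) - 8 * (a * b) = 8 * (8 * x * y + x + 5 * y - a * b) + 5 := by
        rw [hx, hy]; ring
      rw [e3, if_neg (by omega), if_pos h2, if_neg (by omega)]
      rfl
    · obtain ⟨x, hx⟩ : ∃ x, g.re + g.im = 8 * x + 5 := ⟨(g.re + g.im) / 8, by omega⟩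
      obtain ⟨y, hy⟩ : ∃ y, h.re + h.im = 8 * y + 5 := ⟨(h.re + h.im) / 8, by omega⟩
      have e3 : (g.re + g.im) * (h.re + h.im) - 8 * (a * b) =
          8 * (8 * x * y + 5 * x + 5 * y + 3 - a * b) + 1 := by
        rw [hx, hy]; ring
      rw [e3, if_pos (by omega), if_neg (by omega), if_neg (by omega)]
      rfl
  · rw [cr_zero hh, mul_zero, cr_zero fun h1 => hh (Pr_of_mul hg h1)]

/-- the quadratic character attached to `b` and `e` -/
noncomputable def psi (b : Bool) (e : Finset GaussianInt) (n : GaussianInt) : ℤ :=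
  (if b then cr n else cr n * cr n) * ∏ v ∈ e, leg v n

theorem cr_congr {g h : GaussianInt} (hh : (⟨4, 4⟩ : GaussianInt) ∣ g - h) : cr h = cr g := by
  have h4 : (4 : GaussianInt) ∣ g - h := by
    refine dvd_trans ⟨⟨1, 1⟩, ?_⟩ hh
    ext <;> simp
  have hiff : Pr g ↔ Pr h := by
    constructor
    · intro h1
      exact (h1.congr h4).1
    · intro h1
      exact (h1.congr (by rw [← neg_sub]; exact (dvd_neg).2 h4)).1
  obtain ⟨c, hc⟩ := hh
  have e1 : g.re - h.re = 4 * c.re - 4 * c.im := by
    have := congrArg Zsqrtd.re hc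
    rw [Zsqrtd.re_sub, Zsqrtd.re_mul] at this
    rw [this]
    ring
  have e2 : g.im - h.im = 4 * c.im + 4 * c.re := by
    have := congrArg Zsqrtd.im hc
    rw [Zsqrtd.im_sub, Zsqrtd.im_mul] at this
    rw [this]
  have e3 : (g.re + g.im) % 8 = (h.re + h.im) % 8 := by omega
  unfold cr
  rw [e3]
  by_cases h1 : Pr g
  · rw [if_pos h1, if_pos (hiff.1 h1)]
  · rw [if_neg h1, if_neg (fun h2 => h1 (hiff.2 h2))]

theorem cr_abs (g : GaussianInt) : |((cr g : ℤ) : ℝ)| ≤ 1 := by
  by_cases hg : Pr g
  · rcases cr_ne hg with h | h <;> rw [h] <;> norm_num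
  · rw [cr_zero hg]
    norm_num

theorem psi_abs (b : Bool) (e : Finset GaussianInt) (g : GaussianInt) :
    |((psi b e g : ℤ) : ℝ)| ≤ 1 := by
  unfold psi
  push_cast
  rw [abs_mul, Finset.abs_prod]
  refine mul_le_one₀ ?_ (Finset.prod_nonneg fun _ _ => abs_nonneg _)
    (Finset.prod_le_one (fun _ _ => abs_nonneg _) fun _ _ => leg_abs _ _)
  cases b
  · simp only [Bool.false_eq_true, if_false]
    push_cast
    rw [abs_mul]
    exact mul_le_one₀ (cr_abs g) (abs_nonneg _) (cr_abs g)
  · simp only [if_true]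
    exact cr_abs g

theorem psi_zero {b : Bool} {e : Finset GaussianInt} {g : GaussianInt} (h : ¬ Pr g) :
    psi b e g = 0 := by
  unfold psi
  rw [cr_zero h]
  cases b <;> simp

theorem psi_one {b : Bool} {e : Finset GaussianInt} (he : ∀ p ∈ e, OP p) : psi b e 1 = 1 := by
  unfold psi
  have h1 : cr 1 = 1 := cr_one
  rw [h1, Finset.prod_eq_one fun v hv => Pool.Agent.Y697.MQ.leg_one (he v hv).pr]
  cases b <;> rfl

theorem psi_mul {b : Bool} {e : Finset GaussianInt} (he : ∀ p ∈ e, OP p) {g : GaussianInt}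
    (hg : Pr g) (h : GaussianInt) : psi b e (g * h) = psi b e g * psi b e h := by
  unfold psi
  have h1 : ∏ v ∈ e, leg v (g * h) = (∏ v ∈ e, leg v g) * ∏ v ∈ e, leg v h := by
    rw [← Finset.prod_mul_distrib]
    exact Finset.prod_congr rfl fun v hv => leg_mul (he v hv).pr g h
  rw [h1, cr_mul hg]
  cases b <;> simp <;> ring

theorem cr_shift (g : GaussianInt) : cr (g + 4) = -cr g := by
  have h1 : (g + 4).re = g.re + 4 := rfl
  have h2 : (g + 4).im = g.im := by
    show g.im + 0 = g.im
    ring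
  unfold cr
  by_cases h : Pr g
  · have h3 : Pr (g + 4) := by
      unfold Pr at h ⊢
      rw [h1, h2]
      omega
    rw [if_pos h, if_pos h3, h1, h2]
    rcases Pr_sum h with h4 | h4
    · rw [if_neg (by omega), if_pos h4]
    · rw [if_pos (by omega), if_neg (by omega), neg_neg]
  · have h3 : ¬ Pr (g + 4) := by
      unfold Pr at h ⊢
      rw [h1, h2]
      omega
    rw [if_neg h, if_neg h3, neg_zero]

theorem psi_sum (t : ℕ) {b : Bool} {e : Finset GaussianInt} (he : ∀ p ∈ e, OP p)
    (h : b = true ∨ e.Nonempty) :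
    |∑ g ∈ Di t, ((psi b e g : ℤ) : ℝ)| ≤ 12 * Real.sqrt (NS e) * bd t := by
  have key : |∑ g ∈ Di t, ((psi b e g : ℤ) : ℝ)| ≤ 2 * Real.sqrt (32 * NS e) * bd t := by
    rcases e.eq_empty_or_nonempty with h1 | h1
    · subst h1
      have hb : b = true := by
        rcases h with h | h
        · exact h
        · exact absurd h Finset.not_nonempty_empty
      subst hb
      have hNS : NS (∅ : Finset GaussianInt) = 1 := by
        unfold NS
        rw [Finset.prod_empty]
        rfl
      refine avg t (fun g => ((psi true ∅ g : ℤ) : ℝ)) (fun g => psi_abs _ _ _)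
        (A := {0, 1}) ⟨0, by simp⟩ 4 _ (fun a ha => ?_) (fun g => ?_)
      · rw [hNS, Nat.cast_one, mul_one]
        rw [Finset.mem_insert, Finset.mem_singleton] at ha
        rcases ha with rfl | rfl
        · rw [mul_zero]
          have : nm 0 = 0 := rfl
          rw [this]
          norm_num
        · rw [mul_one]
          have : nm 4 = 16 := rfl
          rw [this]
          norm_num
      · rw [Finset.sum_pair (by norm_num : (0 : GaussianInt) ≠ 1), mul_zero, mul_one, add_zero]
        unfold psi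
        simp only [if_true, Finset.prod_empty, mul_one]
        rw [cr_shift]
        push_cast
        ring
    · obtain ⟨p, hp⟩ := h1
      have hpO := he p hp
      obtain ⟨A, hA, hAs⟩ := exists_reps_small hpO.pr.ne_zero
      set k : GaussianInt := ⟨4, 4⟩ * ∏ v ∈ e.erase p, v with hk
      have hNS : NS e = nm p * NS (e.erase p) := by
        rw [NS_eq, NS_eq, Finset.mul_prod_erase e nm hp]
      have hcop : IsCoprime p k := by
        refine (hpO.pr.irreducible.coprime_iff_not_dvd).2 fun hd => ?_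
        rcases hpO.pr.dvd_or_dvd hd with h1 | h1
        · have h2 : p ∣ 2 := by
            have e4 : (⟨4, 4⟩ : GaussianInt) = 2 * (2 * ⟨1, 1⟩) := by decide
            have e5 : (2 : GaussianInt) = ⟨1, 1⟩ * ⟨1, -1⟩ := by decide
            rw [e4] at h1
            rcases hpO.pr.dvd_or_dvd h1 with h6 | h6
            · exact h6
            · rcases hpO.pr.dvd_or_dvd h6 with h7 | h7
              · exact h7
              · rw [e5]
                exact h7.mul_right _
          have h3 : p ∣ 1 := by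
            have h4 := (Pr_iff p).1 hpO.pm
            obtain ⟨c, hc⟩ := h4
            obtain ⟨d, hd⟩ := h2
            refine ⟨1 - d * ⟨1, 1⟩ * c, ?_⟩
            have e2 : (⟨2, 2⟩ : GaussianInt) = 2 * ⟨1, 1⟩ := by
              ext <;> simp
            rw [e2, hd] at hc
            linear_combination -hc
          exact hpO.pr.not_isUnit (isUnit_of_dvd_one h3)
        · obtain ⟨q, hq, hpq⟩ := (Prime.dvd_finsetProd_iff hpO.pr _).1 h1
          have := hpO.dvd (he q (Finset.mem_of_mem_erase hq)) hpq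
          exact Finset.ne_of_mem_erase hq this.symm
      refine avg t (fun g => ((psi b e g : ℤ) : ℝ)) (fun g => psi_abs _ _ _)
        (reps_ne hA) k _ (fun a ha => ?_) (fun g => ?_)
      · rw [hk, nm_mul, nm_mul, hNS]
        have e4 : nm ⟨4, 4⟩ = 32 := rfl
        rw [e4]
        have h2 : (nm a : ℝ) ≤ nm p := by exact_mod_cast (hAs a ha).le
        have h3 : nm (∏ v ∈ e.erase p, v) = NS (e.erase p) := rfl
        rw [h3]
        push_cast
        have h4 : (0 : ℝ) ≤ NS (e.erase p) := Nat.cast_nonneg _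
        nlinarith
      · have h1 : ∀ a ∈ A, ((psi b e (g + k * a) : ℤ) : ℝ) =
            (((if b then cr g else cr g * cr g) * ∏ v ∈ e.erase p, leg v g : ℤ) : ℝ) *
              ((leg p (g + k * a) : ℤ) : ℝ) := by
          intro a _
          rw [← Int.cast_mul]
          congr 1
          unfold psi
          have h2 : cr (g + k * a) = cr g := by
            apply cr_congr
            refine ⟨-((∏ v ∈ e.erase p, v) * a), ?_⟩
            rw [hk]
            ring
          rw [h2, ← Finset.mul_prod_erase e _ hp]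
          have h3 : ∏ v ∈ e.erase p, leg v (g + k * a) = ∏ v ∈ e.erase p, leg v g := by
            refine Finset.prod_congr rfl fun v hv => ?_
            apply leg_congr
            rw [add_sub_cancel_left, hk]
            exact dvd_mul_of_dvd_left (dvd_mul_of_dvd_right (Finset.dvd_prod_of_mem _ hv) _) _
          rw [h3]
          ring
        rw [Finset.sum_congr rfl h1, ← Finset.mul_sum]
        obtain ⟨A', hA', h2⟩ := reps_affine hA g k hcop
        have h3 := h2 (fun a => leg p a)
        rw [sum_leg_reps hpO hA'] at h3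
        have h4 : ∑ a ∈ A, ((leg p (g + k * a) : ℤ) : ℝ) = 0 := by exact_mod_cast h3
        rw [h4, mul_zero]
  refine key.trans ?_
  have h1 : 2 * Real.sqrt (32 * NS e) ≤ 12 * Real.sqrt (NS e) := by
    rw [Real.sqrt_mul (by norm_num)]
    have h2 : Real.sqrt 32 ≤ 6 := by
      rw [Real.sqrt_le_left (by norm_num)]
      norm_num
    have h3 := Real.sqrt_nonneg ((NS e : ℕ) : ℝ)
    nlinarith
  have h4 : 0 ≤ bd t := by
    unfold bd
    positivity
  exact mul_le_mul_of_nonneg_right h1 h4

end Pool.Agent.E8helper75.F3D
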