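import Pool.Agent.E8helper75.F3D.Chr

/-! Divisor sums of quadratic characters. -/

set_option autoImplicit false

namespace Pool.Agent.E8helper75.F3D

open Pool.Agent.Y697.PP

open Finset
open Pool.Agent.Y697.MQ (leg OP Pr Pr_prod Reps Pr_iff Pr_one leg_mul leg_congr
  leg_eq_zero exists_op leg_cases)
open scoped Classical

/-- the divisor sum -/
noncomputable def rr (b : Bool) (e : Finset GaussianInt) (n : GaussianInt) : ℤ :=
  ∑ d ∈ dv n, psi b e d

theorem psi_pow {b : Bool} {e : Finset GaussianInt} (he : ∀ p ∈ e, OP p) {p : GaussianInt}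
    (hp : Pr p) (k : ℕ) : psi b e (p ^ k) = psi b e p ^ k := by
  induction k with
  | zero =>
    rw [pow_zero, pow_zero]
    exact psi_one he
  | succ k ih =>
    rw [pow_succ, psi_mul he (Pr_pow hp k), ih, pow_succ]

theorem rr_mul {b : Bool} {e : Finset GaussianInt} (he : ∀ p ∈ e, OP p) {p m : GaussianInt}
    (hp : OP p) (hm : Pr m) (hpm : ¬ p ∣ m) (k : ℕ) :
    rr b e (p ^ k * m) = (∑ j ∈ Finset.range (k + 1), psi b e p ^ j) * rr b e m := by
  unfold rr
  rw [dv_mul hp hm k, Finset.sum_image, Finset.sum_mul_sum, Finset.sum_product]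
  · refine Finset.sum_congr rfl fun j _ => Finset.sum_congr rfl fun d _ => ?_
    simp only
    rw [psi_mul he (Pr_pow hp.pm j), psi_pow he hp.pm]
  · rintro ⟨i, c⟩ hic ⟨j, d⟩ hjd h
    rw [Finset.mem_coe, Finset.mem_product, mem_dv hm.ne_zero] at hic hjd
    simp only at h hic hjd
    have hpc : ¬ p ∣ c := fun h1 => hpm (h1.trans hic.2.2)
    have hpd : ¬ p ∣ d := fun h1 => hpm (h1.trans hjd.2.2)
    have hij : i = j := by
      rcases lt_trichotomy i j with h1 | h1 | h1
      · exfalso
        obtain ⟨l, rfl⟩ := Nat.exists_eq_add_of_lt h1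
        have h2 : c = p ^ (l + 1) * d := by
          apply mul_left_cancel₀ (pow_ne_zero i hp.pr.ne_zero)
          rw [h, ← mul_assoc, ← pow_add]
          rfl
        apply hpc
        rw [h2, pow_succ, mul_assoc]
        exact Dvd.dvd.mul_left (dvd_mul_right p d) _
      · exact h1
      · exfalso
        obtain ⟨l, rfl⟩ := Nat.exists_eq_add_of_lt h1
        have h2 : d = p ^ (l + 1) * c := by
          apply mul_left_cancel₀ (pow_ne_zero j hp.pr.ne_zero)
          rw [← h, ← mul_assoc, ← pow_add]
          rfl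
        apply hpd
        rw [h2, pow_succ, mul_assoc]
        exact Dvd.dvd.mul_left (dvd_mul_right p c) _
    subst hij
    have := mul_left_cancel₀ (pow_ne_zero i hp.pr.ne_zero) h
    rw [this]

theorem psi_cases {b : Bool} {e : Finset GaussianInt} (g : GaussianInt) :
    psi b e g = 0 ∨ psi b e g = 1 ∨ psi b e g = -1 := by
  have h := psi_abs b e g
  have h2 : |psi b e g| ≤ 1 := by
    have : ((|psi b e g| : ℤ) : ℝ) ≤ ((1 : ℤ) : ℝ) := by
      push_cast
      exact h
    exact_mod_cast this
  rw [abs_le] at h2
  omega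

theorem rr_nonneg {b : Bool} {e : Finset GaussianInt} (he : ∀ p ∈ e, OP p) {n : GaussianInt}
    (hn : Pr n) : 0 ≤ rr b e n := by
  induction hN : nm n using Nat.strong_induction_on generalizing n with
  | _ N ih =>
    by_cases h1 : n = 1
    · rw [h1]
      unfold rr
      have : dv 1 = {1} := by
        ext d
        rw [mem_dv one_ne_zero, Finset.mem_singleton]
        constructor
        · rintro ⟨hd, hd1⟩
          exact hd.unit (isUnit_of_dvd_one hd1)
        · rintro rfl
          exact ⟨Pr_one, dvd_refl _⟩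
      rw [this, Finset.sum_singleton, psi_one he]
      norm_num
    · obtain ⟨p, hp, hpn⟩ := exists_op hn h1
      obtain ⟨k, m, hpm, hnm⟩ := WfDvdMonoid.max_power_factor hn.ne_zero hp.pr.irreducible
      have hm : Pr m := by
        rw [hnm] at hn
        exact (Pool.Agent.Y697.MQ.Pr.of_mul (Pr_pow hp.pm k)).1 hn
      have hk : k ≠ 0 := by
        rintro rfl
        rw [pow_zero, one_mul] at hnm
        rw [hnm] at hpn
        exact hpm hpn
      have hlt : nm m < N := by
        rw [← hN, hnm, nm_mul]
        have h2 : 1 < nm (p ^ k) := by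
          obtain ⟨l, rfl⟩ := Nat.exists_eq_succ_of_ne_zero hk
          rw [pow_succ, nm_mul]
          have h3 := nm_pos (pow_ne_zero l hp.pr.ne_zero)
          have h4 : 1 < nm p := by
            have h5 := nm_pos hp.pr.ne_zero
            have h6 : nm p ≠ 1 := fun h => hp.pr.not_isUnit (Zsqrtd.norm_eq_one_iff.1 h)
            omega
          nlinarith
        have h3 := nm_pos hm.ne_zero
        nlinarith
      rw [hnm, rr_mul he hp hm hpm k]
      apply mul_nonneg _ (ih _ hlt hm rfl)
      rcases psi_cases (b := b) (e := e) p with h | h | h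
      · rw [h]
        exact Finset.sum_nonneg fun j _ => by positivity
      · rw [h]
        exact Finset.sum_nonneg fun j _ => by positivity
      · rw [h, neg_one_geom_sum]
        split_ifs <;> norm_num

theorem rr_prod {b : Bool} {e : Finset GaussianInt} (he : ∀ p ∈ e, OP p)
    {S : Finset GaussianInt} (hS : ∀ p ∈ S, OP p) (h1 : ∀ p ∈ S, psi b e p = 1) :
    rr b e (∏ p ∈ S, p) = 2 ^ S.card := by
  induction S using Finset.induction_on with
  | empty =>
    rw [Finset.prod_empty, Finset.card_empty, pow_zero]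
    unfold rr
    have : dv 1 = {1} := by
      ext d
      rw [mem_dv one_ne_zero, Finset.mem_singleton]
      constructor
      · rintro ⟨hd, hd1⟩
        exact hd.unit (isUnit_of_dvd_one hd1)
      · rintro rfl
        exact ⟨Pr_one, dvd_refl _⟩
    rw [this, Finset.sum_singleton, psi_one he]
  | insert p T hpT ih =>
    have hp := hS p (Finset.mem_insert_self _ _)
    have hT : ∀ q ∈ T, OP q := fun q hq => hS q (Finset.mem_insert_of_mem hq)
    have hnd : ¬ p ∣ ∏ q ∈ T, q := by
      intro h
      obtain ⟨q, hq, hpq⟩ := (Prime.dvd_finsetProd_iff hp.pr _).1 h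
      rw [hp.dvd (hT q hq) hpq] at hpT
      exact hpT hq
    rw [Finset.prod_insert hpT, Finset.card_insert_of_notMem hpT]
    have h2 := rr_mul (b := b) he hp (Pr_prod fun q hq => (hT q hq).pm) hnd 1
    rw [pow_one] at h2
    rw [h2, ih hT fun q hq => h1 q (Finset.mem_insert_of_mem hq), Finset.sum_range_succ,
      Finset.sum_range_one, pow_zero, pow_one, h1 p (Finset.mem_insert_self _ _), pow_succ]
    ring

end Pool.Agent.E8helper75.F3D
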