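import Pool.Agent.E8helper75.F3D.Dv

/-! The hyperbola method for the divisor sums. -/

set_option autoImplicit false

namespace Pool.Agent.E8helper75.F3D

open Pool.Agent.Y697.PP

open Finset
open Pool.Agent.Y697.MQ (leg OP Pr Pr_prod Reps ci ci_zero ci_ne ci_sq ci_mul Pr_iff Pr_one leg_mul leg_congr
  leg_eq_zero exists_op leg_cases)
open scoped Classical

theorem swap (b : Bool) (e : Finset GaussianInt) (Y : ℕ) :
    ∑ n ∈ (Di Y).filter (fun n => Pr n), rr b e n =
      ∑ m ∈ (Di Y).filter (fun m => Pr m), ∑ d ∈ (Di (Y / nm m)).filter (fun d => Pr d),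
        psi b e d := by
  unfold rr
  rw [Finset.sum_sigma', Finset.sum_sigma']
  symm
  refine Finset.sum_bij (fun x _ => ⟨x.2 * x.1, x.2⟩) ?_ ?_ ?_ ?_
  · rintro ⟨m, d⟩ h
    rw [Finset.mem_sigma, Finset.mem_filter, Finset.mem_filter, mem_Di, mem_Di] at h
    obtain ⟨⟨h1, h2⟩, h3, h4⟩ := h
    simp only at h1 h2 h3 h4
    have h5 := nm_pos h2.ne_zero
    rw [Nat.le_div_iff_mul_le h5] at h3
    rw [Finset.mem_sigma, Finset.mem_filter, mem_Di, mem_dv (h4.mul h2).1.ne_zero]
    refine ⟨⟨?_, (h4.mul h2).1⟩, h4, dvd_mul_right d m⟩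
    simp only
    rw [nm_mul]
    exact h3
  · rintro ⟨m, d⟩ h ⟨m', d'⟩ h' heq
    rw [Finset.mem_sigma, Finset.mem_filter, Finset.mem_filter, mem_Di, mem_Di] at h
    simp only [Sigma.mk.injEq, heq_eq_eq] at heq
    obtain ⟨h1, h2⟩ := heq
    subst h2
    have := mul_left_cancel₀ (h.2.2.ne_zero : d ≠ 0) h1
    rw [this]
  · rintro ⟨n, d⟩ h
    rw [Finset.mem_sigma, Finset.mem_filter, mem_Di] at h
    obtain ⟨⟨h1, h2⟩, h3⟩ := h
    simp only at h1 h2 h3
    rw [mem_dv h2.ne_zero] at h3
    obtain ⟨h3, m, rfl⟩ := h3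
    have hm : Pr m := (Pool.Agent.Y697.MQ.Pr.of_mul h3).1 h2
    refine ⟨⟨m, d⟩, ?_, rfl⟩
    rw [nm_mul] at h1
    have hd := nm_pos h3.ne_zero
    rw [Finset.mem_sigma, Finset.mem_filter, Finset.mem_filter, mem_Di, mem_Di]
    refine ⟨⟨le_trans (Nat.le_mul_of_pos_left _ hd) h1, hm⟩, ?_, h3⟩
    simp only
    rw [Nat.le_div_iff_mul_le (nm_pos hm.ne_zero)]
    exact h1
  · rintro ⟨m, d⟩ _
    rfl

theorem rsum {b : Bool} {e : Finset GaussianInt} (he : ∀ p ∈ e, OP p)
    (h : b = true ∨ e.Nonempty) {Y : ℕ} (hY : 1 ≤ Y) :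
    ((∑ n ∈ (Di Y).filter (fun n => Pr n), rr b e n : ℤ) : ℝ) ≤
      11200 * Y * (1 + Real.log (NS e)) := by
  rw [swap]
  set T : ℕ := NS e with hT
  have hT0 : 1 ≤ T := NS_pos he
  have hT' : (1 : ℝ) ≤ T := by exact_mod_cast hT0
  have hlT : 0 ≤ Real.log T := Real.log_nonneg hT'
  have hY' : (1 : ℝ) ≤ Y := by exact_mod_cast hY
  push_cast
  have h1 : ∀ m ∈ (Di Y).filter (fun m => Pr m),
      ∑ d ∈ (Di (Y / nm m)).filter (fun d => Pr d), ((psi b e d : ℤ) : ℝ) ≤
      ((((Di T).filter fun d => d ≠ 0).filter fun d => nm d ≤ Y / nm m).card : ℝ) +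
        (if nm m ≤ Y / T then 144 * Real.sqrt T * (Real.sqrt Y * (1 / Real.sqrt (nm m))) else 0) := by
    intro m hm
    rw [Finset.mem_filter, mem_Di] at hm
    have hm0 := nm_pos hm.2.ne_zero
    have hm0' : (0 : ℝ) < nm m := by exact_mod_cast hm0
    have e1 : ∑ d ∈ (Di (Y / nm m)).filter (fun d => Pr d), ((psi b e d : ℤ) : ℝ) =
        ∑ d ∈ Di (Y / nm m), ((psi b e d : ℤ) : ℝ) := by
      apply Finset.sum_filter_of_ne
      intro d _ hd
      by_contra hc
      exact hd (by rw [psi_zero hc, Int.cast_zero])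
    rw [e1, ← Finset.sum_filter_add_sum_filter_not (Di (Y / nm m)) (fun d => nm d ≤ T)]
    apply add_le_add
    · have e2 : ∑ d ∈ (Di (Y / nm m)).filter (fun d => nm d ≤ T), ((psi b e d : ℤ) : ℝ) =
          ∑ d ∈ ((Di T).filter fun d => d ≠ 0).filter fun d => nm d ≤ Y / nm m,
            ((psi b e d : ℤ) : ℝ) := by
        symm
        apply Finset.sum_subset
        · intro d hd
          rw [Finset.mem_filter, Finset.mem_filter, mem_Di] at hd
          rw [Finset.mem_filter, mem_Di]
          exact ⟨hd.2, hd.1.1⟩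
        · intro d hd hd'
          rw [Finset.mem_filter, mem_Di] at hd
          rw [Finset.mem_filter, Finset.mem_filter, mem_Di] at hd'
          have : d = 0 := by
            by_contra hc
            exact hd' ⟨⟨hd.2, hc⟩, hd.1⟩
          rw [this, psi_zero (fun h => h.ne_zero rfl), Int.cast_zero]
      rw [e2]
      refine (Finset.sum_le_sum (g := fun _ => (1 : ℝ)) fun d _ =>
        (le_abs_self _).trans (psi_abs b e d)).trans ?_
      rw [Finset.sum_const, nsmul_eq_mul, mul_one]
    · split_ifs with h2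
      · have h3 : T ≤ Y / nm m := by
          rw [Nat.le_div_iff_mul_le hm0]
          rw [Nat.le_div_iff_mul_le hT0] at h2
          linarith
        have e2 : ∑ d ∈ (Di (Y / nm m)).filter (fun d => ¬ nm d ≤ T), ((psi b e d : ℤ) : ℝ) =
            ∑ d ∈ Di (Y / nm m), ((psi b e d : ℤ) : ℝ) - ∑ d ∈ Di T, ((psi b e d : ℤ) : ℝ) := by
          rw [← Finset.sum_filter_add_sum_filter_not (Di (Y / nm m)) (fun d => nm d ≤ T)]
          have : (Di (Y / nm m)).filter (fun d => nm d ≤ T) = Di T := by
            ext d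
            rw [Finset.mem_filter, mem_Di, mem_Di]
            exact ⟨fun h => h.2, fun h => ⟨h.trans h3, h⟩⟩
          rw [this]
          ring
        rw [e2]
        have h4 := (le_abs_self _).trans (psi_sum (Y / nm m) he h)
        have h5 := (neg_le_abs _).trans (psi_sum T he h)
        have h6 : bd T ≤ bd (Y / nm m) := by
          unfold bd
          have : Real.sqrt T ≤ Real.sqrt ((Y / nm m : ℕ) : ℝ) :=
            Real.sqrt_le_sqrt (by exact_mod_cast h3)
          linarith
        have h7 := bd_le (hT0.trans h3)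
        have h8 : Real.sqrt ((Y / nm m : ℕ) : ℝ) ≤ Real.sqrt Y * (1 / Real.sqrt (nm m)) := by
          rw [mul_one_div, ← Real.sqrt_div' _ hm0'.le]
          exact Real.sqrt_le_sqrt Nat.cast_div_le
        have h9 : 0 ≤ 12 * Real.sqrt T := by positivity
        have h10 : bd T ≤ 6 * (Real.sqrt Y * (1 / Real.sqrt (nm m))) := by linarith
        have h11 : bd (Y / nm m) ≤ 6 * (Real.sqrt Y * (1 / Real.sqrt (nm m))) := by linarith
        have h12 := mul_le_mul_of_nonneg_left h10 h9
        have h13 := mul_le_mul_of_nonneg_left h11 h9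
        rw [← hT] at h4 h5
        linarith
      · have : (Di (Y / nm m)).filter (fun d => ¬ nm d ≤ T) = ∅ := by
          rw [Finset.filter_eq_empty_iff]
          intro d hd hc
          rw [mem_Di] at hd
          apply h2
          have h3 : T ≤ Y / nm m := by omega
          rw [Nat.le_div_iff_mul_le hT0]
          rw [Nat.le_div_iff_mul_le hm0] at h3
          linarith
        rw [this, Finset.sum_empty]
  refine (Finset.sum_le_sum h1).trans ?_
  rw [Finset.sum_add_distrib]
  have hA : ∑ m ∈ (Di Y).filter (fun m => Pr m),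
      ((((Di T).filter fun d => d ≠ 0).filter fun d => nm d ≤ Y / nm m).card : ℝ) ≤
      400 * Y * (1 + Real.log T) := by
    have e1 : ∑ m ∈ (Di Y).filter (fun m => Pr m),
        ((((Di T).filter fun d => d ≠ 0).filter fun d => nm d ≤ Y / nm m).card : ℝ) =
        ∑ d ∈ (Di T).filter (fun d => d ≠ 0),
          ((((Di Y).filter fun m => Pr m).filter fun m => nm d ≤ Y / nm m).card : ℝ) := by
      simp only [Finset.card_filter _ _, Nat.cast_sum]
      rw [Finset.sum_comm]
    rw [e1]
    have h2 : ∀ d ∈ (Di T).filter (fun d => d ≠ 0),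
        ((((Di Y).filter fun m => Pr m).filter fun m => nm d ≤ Y / nm m).card : ℝ) ≤
        10 * Y * (1 / nm d) := by
      intro d hd
      rw [Finset.mem_filter] at hd
      rw [mul_one_div]
      refine le_trans ?_ (card_mult_le hd.2 Y)
      have : (((Di Y).filter fun m => Pr m).filter fun m => nm d ≤ Y / nm m).card ≤
          ((Di Y).filter fun n => d ∣ n ∧ n ≠ 0).card := by
        apply Finset.card_le_card_of_injOn (fun m => d * m)
        · intro m hm
          rw [Finset.mem_coe, Finset.mem_filter, Finset.mem_filter] at hm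
          rw [Finset.mem_coe, Finset.mem_filter, mem_Di]
          refine ⟨?_, dvd_mul_right _ _, mul_ne_zero hd.2 hm.1.2.ne_zero⟩
          rw [nm_mul]
          exact (Nat.le_div_iff_mul_le (nm_pos hm.1.2.ne_zero)).1 hm.2
        · intro a _ b _ hab
          exact mul_left_cancel₀ hd.2 hab
      exact_mod_cast this
    refine (Finset.sum_le_sum h2).trans ?_
    rw [← Finset.mul_sum]
    have h3 := harm hT0
    have h4 : (0 : ℝ) ≤ 10 * Y := by linarith
    have h5 := mul_le_mul_of_nonneg_left h3 h4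
    linarith
  have hB : ∑ m ∈ (Di Y).filter (fun m => Pr m), (if nm m ≤ Y / T then
      144 * Real.sqrt T * (Real.sqrt Y * (1 / Real.sqrt (nm m))) else 0) ≤ 10800 * Y := by
    rw [← Finset.sum_filter]
    rcases Nat.eq_zero_or_pos (Y / T) with h0 | h0
    · rw [Finset.sum_eq_zero]
      · positivity
      · intro m hm
        rw [Finset.mem_filter, Finset.mem_filter] at hm
        have := nm_pos hm.1.2.ne_zero
        omega
    · have h2 : ∑ m ∈ ((Di Y).filter (fun m => Pr m)).filter (fun m => nm m ≤ Y / T),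
          144 * Real.sqrt T * (Real.sqrt Y * (1 / Real.sqrt (nm m))) ≤
          ∑ m ∈ (Di (Y / T)).filter (fun m => m ≠ 0),
          144 * Real.sqrt T * (Real.sqrt Y * (1 / Real.sqrt (nm m))) := by
        apply Finset.sum_le_sum_of_subset_of_nonneg
        · intro m hm
          rw [Finset.mem_filter, Finset.mem_filter] at hm
          rw [Finset.mem_filter, mem_Di]
          exact ⟨hm.2, hm.1.2.ne_zero⟩
        · intro m _ _
          positivity
      refine h2.trans ?_
      rw [← Finset.mul_sum, ← Finset.mul_sum]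
      have h3 := sum_sqrt h0
      have h4 : Real.sqrt ((Y / T : ℕ) : ℝ) ≤ Real.sqrt Y / Real.sqrt T := by
        rw [← Real.sqrt_div' _ (by linarith)]
        exact Real.sqrt_le_sqrt Nat.cast_div_le
      have hsT : 0 < Real.sqrt T := Real.sqrt_pos.2 (by linarith)
      have hsY : 0 ≤ Real.sqrt Y := Real.sqrt_nonneg _
      calc 144 * Real.sqrt T * (Real.sqrt Y * ∑ m ∈ (Di (Y / T)).filter (fun m => m ≠ 0),
            1 / Real.sqrt (nm m)) ≤ 144 * Real.sqrt T * (Real.sqrt Y * (75 * (Real.sqrt Y / Real.sqrt T))) := by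
            gcongr
            linarith
        _ = 10800 * (Real.sqrt Y * Real.sqrt Y) := by
            field_simp
            norm_num
        _ = 10800 * Y := by rw [Real.mul_self_sqrt (by linarith)]
  have h3 : 0 ≤ (Y : ℝ) * Real.log T := by positivity
  linarith

/-- **few sets of primes on which the character is one** -/
theorem count_psi {b : Bool} {e : Finset GaussianInt} (he : ∀ p ∈ e, OP p)
    (h : b = true ∨ e.Nonempty) (Y V : ℕ) :
    ((((SS Y).filter fun S => V ≤ S.card ∧ ∀ p ∈ S, psi b e p = 1).card : ℕ) : ℝ) * 2 ^ V ≤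
      11200 * Y * (1 + Real.log (NS e)) := by
  rcases Nat.eq_zero_or_pos Y with hY | hY
  · subst hY
    have : (SS 0).filter (fun S => V ≤ S.card ∧ ∀ p ∈ S, psi b e p = 1) = ∅ := by
      rw [Finset.filter_eq_empty_iff]
      intro S hS
      rw [mem_SS] at hS
      have := NS_pos hS.1
      omega
    rw [this]
    simp
  refine le_trans ?_ (rsum he h hY)
  have h1 : ((((SS Y).filter fun S => V ≤ S.card ∧ ∀ p ∈ S, psi b e p = 1).card : ℕ) : ℤ) * 2 ^ V ≤
      ∑ n ∈ (Di Y).filter (fun n => Pr n), rr b e n := by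
    have h2 : ((((SS Y).filter fun S => V ≤ S.card ∧ ∀ p ∈ S, psi b e p = 1).card : ℕ) : ℤ) * 2 ^ V =
        ∑ n ∈ ((SS Y).filter fun S => V ≤ S.card ∧ ∀ p ∈ S, psi b e p = 1).image
          (fun S => ∏ p ∈ S, p), 2 ^ V := by
      rw [Finset.sum_const, nsmul_eq_mul, Finset.card_image_of_injOn]
      intro S hS T hT h
      rw [Finset.mem_coe, Finset.mem_filter, mem_SS] at hS hT
      exact prod_inj hS.1.1 hT.1.1 h
    rw [h2]
    refine (Finset.sum_le_sum (g := fun n => rr b e n) fun n hn => ?_).trans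
      (Finset.sum_le_sum_of_subset_of_nonneg ?_ fun n hn _ => ?_)
    · rw [Finset.mem_image] at hn
      obtain ⟨S, hS, rfl⟩ := hn
      rw [Finset.mem_filter, mem_SS] at hS
      rw [rr_prod he hS.1.1 hS.2.2]
      exact pow_le_pow_right₀ (by norm_num) hS.2.1
    · intro n hn
      rw [Finset.mem_image] at hn
      obtain ⟨S, hS, rfl⟩ := hn
      rw [Finset.mem_filter, mem_SS] at hS
      exact Finset.mem_filter.2 ⟨mem_Di.2 hS.1.2, Pr_prod fun p hp => (hS.1.1 p hp).pm⟩
    · exact rr_nonneg he (Finset.mem_filter.1 hn).2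
  exact_mod_cast h1

end Pool.Agent.E8helper75.F3D
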